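import Pool.Agent.H30.HecB

set_option autoImplicit false

namespace Pool.Agent.Results.MP_a4b8ee_gt.CH

open Pool.Agent.H30.Hec

/-- Under CH there is a regular `T₁` Lindelöf totally paracompact space that is not Menger. -/
theorem result (h : (Cardinal.continuum : Cardinal.{0}) = Cardinal.aleph 1) :
    ∃ (X : Type) (_ : TopologicalSpace X), RegularSpace X ∧ T1Space X ∧ LindelofSpace X ∧
      (∀ B : Set (Set X), TopologicalSpace.IsTopologicalBasis B →
        ∃ C : Set (Set X), C ⊆ B ∧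
          LocallyFinite (fun s : C => (s : Set X)) ∧ ⋃₀ C = Set.univ) ∧
      ∃ U : ℕ → Set (Set X), (∀ n, ∀ s ∈ U n, IsOpen s) ∧ (∀ n, ⋃₀ U n = Set.univ) ∧
        ¬ ∃ A : ℕ → Set (Set X), (∀ n, A n ⊆ U n ∧ (A n).Finite) ∧
          (⋃ n, ⋃₀ A n) = Set.univ := by
  obtain ⟨X, hX⟩ := exists_lu h
  exact ⟨Sp X, inferInstance, inferInstance, inferInstance, hX.lind, fun _ hB => hX.tp hB,
    hX.not_menger⟩

end Pool.Agent.Results.MP_a4b8ee_gt.CH
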